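import Pool.Agent.helper53.EXT.SpecB

set_option autoImplicit false

open Finset

namespace Pool.Agent.EXT

open Pool.Agent.EXC

theorem B0A_two {K : Type} [Field K] (φ : ZMod 2 →+* K) : (2 : K) = 0 := by
  have h : (2 : K) = φ 2 := (map_ofNat φ 2).symm
  have h2 : (2 : ZMod 2) = 0 := by decide
  rw [h, h2, map_zero]

theorem B0A_xadd {K : Type} [Field K] (a : Lm C6 K) (t : K) (v w : Lm C6 K) :
    xe C6 a t (v + w) = xe C6 a t v + xe C6 a t w := by
  simp only [xe, br_add_right, fm_add_right, smul_add, mul_add, add_smul]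
  abel

theorem B0A_xzero {K : Type} [Field K] (a : Lm C6 K) (t : K) : xe C6 a t 0 = 0 := by
  have h := B0A_xadd a t 0 0
  rw [add_zero] at h
  exact (left_eq_add.1 h)

/-- sum of the root vectors of a list -/
noncomputable def B0A_val (K : Type) [Field K] (L : List (Fin 6 → ℤ)) : Lm C6 K :=
  (L.map (fun β => (E C6 β : Lm C6 K))).sum

theorem B0A_val_nil (K : Type) [Field K] : B0A_val K [] = 0 := by simp [B0A_val]

theorem B0A_val_cons (K : Type) [Field K] (β : Fin 6 → ℤ) (L : List (Fin 6 → ℤ)) :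
    B0A_val K (β :: L) = E C6 β + B0A_val K L := by simp [B0A_val]

theorem B0A_val_append (K : Type) [Field K] (L L' : List (Fin 6 → ℤ)) :
    B0A_val K (L ++ L') = B0A_val K L + B0A_val K L' := by simp [B0A_val]

theorem B0A_val_perm (K : Type) [Field K] {L L' : List (Fin 6 → ℤ)} (h : L.Perm L') :
    B0A_val K L = B0A_val K L' := (h.map _).sum_eq

theorem B0A_val_flatMap (K : Type) [Field K] {ι : Type} (l : List ι) (g : ι → List (Fin 6 → ℤ)) :
    B0A_val K (l.flatMap g) = (l.map (fun i => B0A_val K (g i))).sum := by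
  induction l with
  | nil => simp [B0A_val]
  | cons i l ih => rw [List.flatMap_cons, B0A_val_append, ih, List.map_cons, List.sum_cons]

/-- the action of `x_α(1)` on lists of roots -/
def B0A_act (α : Fin 6 → ℤ) (L : List (Fin 6 → ℤ)) : List (Fin 6 → ℤ) :=
  L.flatMap (fun β => if ip C6 α β = -1 then [β, α + β] else [β])

theorem B0A_act_val {K : Type} [Field K] (φ : ZMod 2 →+* K) (α : Fin 6 → ℤ) (hα : ip C6 α α = 2)
    (L : List (Fin 6 → ℤ)) (hL : ∀ β ∈ L, ip C6 β β = 2 ∧ -1 ≤ ip C6 α β) :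
    xe C6 (E C6 α) 1 (B0A_val K L) = B0A_val K (B0A_act α L) := by
  induction L with
  | nil => simp only [B0A_act, List.flatMap_nil, B0A_val_nil]; exact B0A_xzero _ _
  | cons β L ih =>
    have ih' := ih (fun b hb => hL b (List.mem_cons_of_mem _ hb))
    obtain ⟨h1, h2⟩ := hL β List.mem_cons_self
    have hc : B0A_act α (β :: L) = (if ip C6 α β = -1 then [β, α + β] else [β]) ++ B0A_act α L :=
      List.flatMap_cons
    rw [B0A_val_cons, B0A_xadd, ih', hc, B0A_val_append]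
    congr 1
    have hact := f_ACT 6 C6 K α 1 hα
    by_cases h : ip C6 α β = -1
    · rw [if_pos h, hact.2.1 β h1 h, B0A_val_cons, B0A_val_cons, B0A_val_nil, add_zero]
      have hs : ((sg C6 α β : ℤ) : K) = 1 := by
        rcases sg_cases C6 α β with hh | hh
        · rw [hh]; simp
        · rw [hh]
          have := B0A_two φ
          push_cast
          linear_combination (-1) * this
      rw [hs, mul_one, one_smul]
    · rw [if_neg h, hact.1 β h1 (by omega), B0A_val_cons, B0A_val_nil, add_zero]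

/-- toggling a root -/
def B0A_tog (β : Fin 6 → ℤ) (L : List (Fin 6 → ℤ)) : List (Fin 6 → ℤ) :=
  if β ∈ L then L.erase β else β :: L

theorem B0A_val_tog {K : Type} [Field K] (φ : ZMod 2 →+* K) (β : Fin 6 → ℤ) (L : List (Fin 6 → ℤ)) :
    B0A_val K (B0A_tog β L) = E C6 β + B0A_val K L := by
  by_cases h : β ∈ L
  · rw [B0A_tog, if_pos h, B0A_val_perm K (List.perm_cons_erase h), B0A_val_cons, ← add_assoc]
    have : (E C6 β : Lm C6 K) + E C6 β = 0 := by
      rw [← two_smul K (E C6 β : Lm C6 K), B0A_two φ, zero_smul]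
    rw [this, zero_add]
  · rw [B0A_tog, if_neg h, B0A_val_cons]

/-- normal form modulo 2 -/
def B0A_norm (L : List (Fin 6 → ℤ)) : List (Fin 6 → ℤ) := L.foldr B0A_tog []

theorem B0A_val_norm {K : Type} [Field K] (φ : ZMod 2 →+* K) (L : List (Fin 6 → ℤ)) :
    B0A_val K (B0A_norm L) = B0A_val K L := by
  induction L with
  | nil => rfl
  | cons β L ih =>
    have : B0A_norm (β :: L) = B0A_tog β (B0A_norm L) := rfl
    rw [this, B0A_val_tog φ, ih, B0A_val_cons]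

/-- the column `j` of the matrix as a list -/
def B0A_tgt (P : Matrix (Fin 6) (Fin 6) (ZMod 2)) (j : Fin 6) : List (Fin 6 → ℤ) :=
  (List.finRange 6).flatMap (fun i => if P i j = 1 then [et6 i, pv (et6 i)] else [])

theorem B0A_val_tgt {K : Type} [Field K] (φ : ZMod 2 →+* K) (P : Matrix (Fin 6) (Fin 6) (ZMod 2)) (j : Fin 6) :
    B0A_val K (B0A_tgt P j) = ∑ i, φ (P i j) • (E C6 (et6 i) + E C6 (pv (et6 i)) : Lm C6 K) := by
  rw [Fin.sum_univ_def, B0A_tgt, B0A_val_flatMap]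
  congr 1
  refine List.map_congr_left fun i _ => ?_
  have h01 : ∀ a : ZMod 2, a = 0 ∨ a = 1 := by decide
  rcases h01 (P i j) with h | h
  · rw [h, map_zero, zero_smul, if_neg (by decide), B0A_val_nil]
  · rw [h, map_one, one_smul, if_pos rfl, B0A_val_cons, B0A_val_cons, B0A_val_nil, add_zero]

theorem B0A_of_basis {K : Type} [Field K] (φ : ZMod 2 →+* K) (g : Lm C6 K ≃ₗ[K] Lm C6 K)
    (P : Matrix (Fin 6) (Fin 6) (ZMod 2))
    (h : ∀ j, g (B0A_val K [et6 j, pv (et6 j)]) = B0A_val K (B0A_tgt P j)) : Mq φ g P := by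
  intro c
  have hw : ∀ j, g (E C6 (et6 j) + E C6 (pv (et6 j)) : Lm C6 K) =
      ∑ i, φ (P i j) • (E C6 (et6 i) + E C6 (pv (et6 i)) : Lm C6 K) := by
    intro j
    rw [← B0A_val_tgt, ← h j, B0A_val_cons, B0A_val_cons, B0A_val_nil, add_zero]
  unfold io6
  rw [map_sum]
  simp only [map_smul, hw, Finset.smul_sum, smul_smul]
  rw [Finset.sum_comm]
  refine Finset.sum_congr rfl fun i _ => ?_
  rw [← Finset.sum_smul]
  congr 1
  simp only [Matrix.mulVec, dotProduct, Matrix.map_apply]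
  exact Finset.sum_congr rfl fun j _ => mul_comm _ _

/-- the finite check for one factor -/
def B0A_ok1 (α : Fin 6 → ℤ) (P : Matrix (Fin 6) (Fin 6) (ZMod 2)) : Prop :=
  ip C6 α α = 2 ∧ ∀ j : Fin 6, (∀ β ∈ [et6 j, pv (et6 j)], ip C6 β β = 2 ∧ -1 ≤ ip C6 α β) ∧
    (B0A_norm (B0A_act α [et6 j, pv (et6 j)])).isPerm (B0A_norm (B0A_tgt P j)) = true

instance (α : Fin 6 → ℤ) (P : Matrix (Fin 6) (Fin 6) (ZMod 2)) : Decidable (B0A_ok1 α P) := by
  unfold B0A_ok1; infer_instance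

/-- the finite check for two factors -/
def B0A_ok2 (α α' : Fin 6 → ℤ) (P : Matrix (Fin 6) (Fin 6) (ZMod 2)) : Prop :=
  ip C6 α α = 2 ∧ ip C6 α' α' = 2 ∧ ∀ j : Fin 6, (∀ β ∈ [et6 j, pv (et6 j)], ip C6 β β = 2 ∧ -1 ≤ ip C6 α' β) ∧
    (∀ β ∈ B0A_act α' [et6 j, pv (et6 j)], ip C6 β β = 2 ∧ -1 ≤ ip C6 α β) ∧
    (B0A_norm (B0A_act α (B0A_act α' [et6 j, pv (et6 j)]))).isPerm (B0A_norm (B0A_tgt P j)) = true

instance (α α' : Fin 6 → ℤ) (P : Matrix (Fin 6) (Fin 6) (ZMod 2)) : Decidable (B0A_ok2 α α' P) := by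
  unfold B0A_ok2; infer_instance

theorem B0A_m1 {K : Type} [Field K] (φ : ZMod 2 →+* K) (g : Lm C6 K ≃ₗ[K] Lm C6 K) (α : Fin 6 → ℤ)
    (P : Matrix (Fin 6) (Fin 6) (ZMod 2)) (hok : B0A_ok1 α P) (hg : IsX C6 (E C6 α) 1 g) : Mq φ g P := by
  refine B0A_of_basis φ g P fun j => ?_
  rw [hg, B0A_act_val φ α hok.1 _ (hok.2 j).1, ← B0A_val_norm φ, ← B0A_val_norm φ (B0A_tgt P j)]
  exact B0A_val_perm K (List.isPerm_iff.1 (hok.2 j).2)

theorem B0A_m2 {K : Type} [Field K] (φ : ZMod 2 →+* K) (g : Lm C6 K ≃ₗ[K] Lm C6 K) (α : Fin 6 → ℤ)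
    (P : Matrix (Fin 6) (Fin 6) (ZMod 2)) (hok : B0A_ok2 α (pv α) P) (hg : IsS (RingEquiv.refl K) α 1 g) :
    Mq φ g P := by
  refine B0A_of_basis φ g P fun j => ?_
  have hs : ((sn α : ℤ) : K) * (RingEquiv.refl K) 1 = 1 := by
    rw [map_one, mul_one]
    unfold sn
    split_ifs
    · simp
    · have := B0A_two φ
      push_cast
      linear_combination (-1) * this
  rw [hg, hs, B0A_act_val φ _ hok.2.1 _ (hok.2.2 j).1, B0A_act_val φ _ hok.1 _ (hok.2.2 j).2.1,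
    ← B0A_val_norm φ, ← B0A_val_norm φ (B0A_tgt P j)]
  exact B0A_val_perm K (List.isPerm_iff.1 (hok.2.2 j).2.2)

theorem B0A_c1 : B0A_ok1 (sr 3) (LP 0) ∧ B0A_ok1 (-sr 3) (LN 0) := by decide +kernel

theorem B0A_c2 : B0A_ok2 (sr 2) (pv (sr 2)) (LP 1) ∧ B0A_ok2 (-sr 2) (pv (-sr 2)) (LN 1) := by decide +kernel

theorem B0A_c3 : B0A_ok2 (sr 0) (pv (sr 0)) (LP 2) ∧ B0A_ok2 (-sr 0) (pv (-sr 0)) (LN 2) := by decide +kernel

theorem B0A (hB0R : B0R_stmt) : B0A_stmt := by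
  have _ := hB0R
  intro K _ φ g
  refine ⟨B0A_m1 φ g _ _ B0A_c1.1, B0A_m1 φ g _ _ B0A_c1.2, B0A_m2 φ g _ _ B0A_c2.1, B0A_m2 φ g _ _ B0A_c2.2,
    B0A_m2 φ g _ _ B0A_c3.1, B0A_m2 φ g _ _ B0A_c3.2, ?_, ?_, ?_⟩
  · intro g' P P' h h' c
    have e : (g * g') (io6 c) = g (g' (io6 c)) := rfl
    rw [e, h', h, Matrix.mulVec_mulVec, ← Matrix.map_mul]
  · intro P P' hPP h c
    have e : g (io6 ((P'.map φ).mulVec c)) = io6 c := by
      rw [h, Matrix.mulVec_mulVec, ← Matrix.map_mul, hPP, Matrix.map_one _ (map_zero φ) (map_one φ), Matrix.one_mulVec]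
    rw [← e]
    exact LinearEquiv.symm_apply_apply g _
  · intro c
    rw [Matrix.map_one _ (map_zero φ) (map_one φ), Matrix.one_mulVec]
    rfl

end Pool.Agent.EXT
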